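import Pool.Agent.R623.I.Pos

/-!
# An introenumerable set which is not finitely decomposable

For a real `X` let `A X` be the set of all (codes of) finite nonempty lists of words of the same
length, one of which is an initial segment of `X`, such that all the words agree with `X` up to
the length of the list.  All the sets `A X` are introenumerable, and only countably many of them
are finitely decomposable.
-/

set_option autoImplicit false

namespace Pool.Agent.Results.MP_7321fb_lc.NotDecomposable

open Encodable Pool.Agent.Helper446 Pool.Agent.Helper446.Defs Pool.Agent.Helper446.RE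
open Pool.Agent.R623.Intro

/-- The finite set with canonical index `u`: the set of the positions of the digits `1` in the
binary expansion of `u`. -/
def canonical (u : ℕ) : Set ℕ := {i | u / 2 ^ i % 2 = 1}

/-- The result of the application of the enumeration operator `T` to the set `C`. -/
def apply (T C : Set ℕ) : Set ℕ := {n | ∃ u, canonical u ⊆ C ∧ Nat.pair u n ∈ T}

/-- `T` is an enumeration operator: a computably enumerable set (of codes of pairs). -/
def IsOperator (T : Set ℕ) : Prop := REPred fun m => m ∈ T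

/-- `A` is enumeration reducible to `C`. -/
def EnumReducible (A C : Set ℕ) : Prop := ∃ T, IsOperator T ∧ apply T C = A

/-- `A` is introenumerable: it is infinite and enumeration reducible to each of its infinite
subsets. -/
def Introenumerable (A : Set ℕ) : Prop := A.Infinite ∧ ∀ C ⊆ A, C.Infinite → EnumReducible A C

/-- One enumeration operator sends every infinite subset of `D` to `A`. -/
def UniformlyEnumReducible (A D : Set ℕ) : Prop :=
  ∃ T, IsOperator T ∧ ∀ C ⊆ D, C.Infinite → apply T C = A

/-- `A` is a finite union of sets `D 0, ..., D n` such that, for each `i`, one enumeration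
operator sends every infinite subset of `D i` to `A`. -/
def FinitelyDecomposable (A : Set ℕ) : Prop :=
  ∃ (n : ℕ) (D : Fin (n + 1) → Set ℕ), A = ⋃ i, D i ∧ ∀ i, UniformlyEnumReducible A (D i)

theorem exists_canonical (D : List ℕ) : ∃ u, ∀ i, i ∈ canonical u ↔ i ∈ D := by
  induction D with
  | nil => exact ⟨0, fun i => by simp [canonical]⟩
  | cons x D ih =>
    obtain ⟨u, hu⟩ := ih
    refine ⟨u ||| 2 ^ x, fun i => ?_⟩
    have h1 : ∀ v, i ∈ canonical v ↔ v.testBit i = true := by
      intro v
      rw [Nat.testBit_eq_decide_div_mod_eq]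
      simp [canonical]
    rw [h1, Nat.testBit_or, Nat.testBit_two_pow, Bool.or_eq_true, ← h1, hu, List.mem_cons,
      decide_eq_true_iff]
    tauto

/-- a binary digit -/
def dig (p : ℕ × ℕ) : ℕ := p.1 / 2 ^ p.2 % 2

theorem computable_dig : Computable dig := by
  have h1 : Primrec₂ fun a b : ℕ => a ^ b := Primrec₂.unpaired'.1 Nat.Primrec.pow
  have h2 : Primrec fun p : ℕ × ℕ => p.1 / 2 ^ p.2 % 2 :=
    Primrec.nat_mod.comp (Primrec.nat_div.comp Primrec.fst
      (h1.comp (Primrec.const 2) Primrec.snd)) (Primrec.const 2)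
  exact h2.to_comp

theorem mem_canonical {u i : ℕ} : i ∈ canonical u ↔ dig (u, i) = 1 := Iff.rfl

attribute [irreducible] dig

theorem re_digit : REPred fun z : ((ℕ × ℕ) × List ℕ) × ℕ => dig (z.1.1.1, z.2) = 1 := by
  have h1 : Computable fun z : ((ℕ × ℕ) × List ℕ) × ℕ => (z.1.1.1, z.2) := by fun_prop
  have h2 : Computable fun z : ((ℕ × ℕ) × List ℕ) × ℕ => dig (z.1.1.1, z.2) :=
    computable_dig.comp h1
  exact RE.eq h2 (Computable.const 1)

theorem re_all : REPred fun y : (ℕ × ℕ) × List ℕ => ∀ x ∈ y.2, dig (y.1.1, x) = 1 :=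
  RE.all_mem (p := fun (y : (ℕ × ℕ) × List ℕ) (x : ℕ) => dig (y.1.1, x) = 1)
    (l := fun y : (ℕ × ℕ) × List ℕ => y.2) re_digit Computable.snd

theorem re_op {R : ℕ → List ℕ → Prop} (hR : REPred fun x : ℕ × List ℕ => R x.1 x.2) :
    REPred fun p : ℕ × ℕ => ∃ D : List ℕ, (∀ x ∈ D, dig (p.1, x) = 1) ∧ R p.2 D := by
  refine RE.ex (p := fun (p : ℕ × ℕ) (D : List ℕ) => (∀ x ∈ D, dig (p.1, x) = 1) ∧
    R p.2 D) (RE.and re_all ?_)
  exact RE.comp hR (f := fun y : (ℕ × ℕ) × List ℕ => (y.1.2, y.2)) (by fun_prop)

theorem enumReducible_of_posIn {A C : Set ℕ} (h : PosIn C (· ∈ A)) : EnumReducible A C := by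
  obtain ⟨R, hR, h1⟩ := h
  refine ⟨{m | ∃ D : List ℕ, (∀ x ∈ D, dig (m.unpair.1, x) = 1) ∧ R m.unpair.2 D}, ?_, ?_⟩
  · exact RE.comp (re_op hR) (f := fun m : ℕ => m.unpair) Computable.unpair
  · ext n
    refine Iff.trans ?_ (h1 n).symm
    constructor
    · rintro ⟨u, hu, D, hD, hR'⟩
      rw [Nat.unpair_pair] at hD hR'
      exact ⟨D, fun x hx => hu (mem_canonical.2 (hD x hx)), hR'⟩
    · rintro ⟨D, hD, hR'⟩
      obtain ⟨u, hu⟩ := exists_canonical D
      refine ⟨u, fun i hi => hD i ((hu i).1 hi), D, ?_, ?_⟩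
      · rw [Nat.unpair_pair]
        exact fun x hx => mem_canonical.1 ((hu x).2 hx)
      · rw [Nat.unpair_pair]
        exact hR'

theorem introenumerable_A (X : ℕ → Bool) : Introenumerable (A X) :=
  ⟨infinite_A X, fun _ hC hinf => enumReducible_of_posIn (posIn_A hC hinf)⟩

/-- There are countably many enumeration operators. -/
theorem countable_operators : Countable {T : Set ℕ // IsOperator T} := by
  have h1 : ∀ T : {T : Set ℕ // IsOperator T}, ∃ c : Nat.Partrec.Code,
      ∀ n, n ∈ T.1 ↔ (c.eval n).Dom := by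
    rintro ⟨T, hT⟩
    have h2 : Partrec fun n : ℕ => (Part.assert (n ∈ T) fun _ => Part.some ()).map
        fun _ => (0 : ℕ) := Partrec.map hT ((Computable.const 0).to₂)
    obtain ⟨c, hc⟩ := Nat.Partrec.Code.exists_code.1 (Partrec.nat_iff.1 h2)
    refine ⟨c, fun n => ?_⟩
    rw [hc]
    simp [Part.assert]
  choose f hf using h1
  have hinj : Function.Injective f := by
    intro T T' h
    apply Subtype.ext
    ext n
    rw [hf, hf, h]
  exact hinj.countable

/-- **Positive answer to Q1.** There is an introenumerable set which is not finitely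
decomposable. -/
theorem result : ∃ A : Set ℕ, Introenumerable A ∧ ¬ FinitelyDecomposable A := by
  have := countable_operators
  have h1 := countable_dcp
    (fun (T : {T : Set ℕ // IsOperator T}) (C B : Set ℕ) => apply T.1 C = B)
    (fun T C B B' h h' => h.symm.trans h')
  have h2 : ∃ X, X ∉ {X : ℕ → Bool | Dcp (fun (T : {T : Set ℕ // IsOperator T})
      (C B : Set ℕ) => apply T.1 C = B) (A X)} := exists_not_mem h1
  obtain ⟨X, hX⟩ := h2
  refine ⟨_, introenumerable_A X, ?_⟩
  rintro ⟨n, D, h3, h4⟩
  refine hX ⟨n, D, h3, fun i => ?_⟩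
  obtain ⟨T, hT, h5⟩ := h4 i
  exact ⟨⟨T, hT⟩, h5⟩

end Pool.Agent.Results.MP_7321fb_lc.NotDecomposable
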